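import Pool.Agent.H7.GU.Stmts

/-!
Row LMB0 of the board gu8 (MP_fd41b2_co): the size of the factors (copy of row LMB of gt7 by helper31).
-/

set_option autoImplicit false

open Finset

namespace Pool.GU7

open Pool.Agent.H23.KT Pool.Agent.H46.KW Pool.KQ Pool.GT7

private theorem LMB8_pow (k : ℕ) (t : ℝ) (h0 : 0 ≤ t) (h1 : t ≤ 1) :
    (1 + t) ^ k ≤ 1 + (2 ^ k - 1) * t := by
  induction k with
  | zero => simp
  | succ k ih =>
    have h2 : (0 : ℝ) ≤ 2 ^ k - 1 := by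
      have : (1 : ℝ) ≤ 2 ^ k := one_le_pow₀ (by norm_num)
      linarith
    calc (1 + t) ^ (k + 1) = (1 + t) ^ k * (1 + t) := pow_succ _ _
      _ ≤ (1 + (2 ^ k - 1) * t) * (1 + t) := mul_le_mul_of_nonneg_right ih (by linarith)
      _ = 1 + t + (2 ^ k - 1) * t + (2 ^ k - 1) * t * t := by ring
      _ ≤ 1 + t + (2 ^ k - 1) * t + (2 ^ k - 1) * t * 1 := by
          have : (2 ^ k - 1) * t * t ≤ (2 ^ k - 1) * t * 1 :=
            mul_le_mul_of_nonneg_left h1 (mul_nonneg h2 h0)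
          linarith
      _ = 1 + (2 ^ (k + 1) - 1) * t := by rw [pow_succ]; ring

theorem LMB0_thm (h1 : TTRStmt) : LMB0Stmt := by
  intro p w r hP
  obtain ⟨hwp, hr1, hrp⟩ := hP
  obtain ⟨-, -, h3, -⟩ := h1
  refine ⟨2 ^ (w + 2) + r, by positivity, fun a ha => ?_⟩
  have hA : (1 : ℝ) ≤ a := by exact_mod_cast ha
  have hA0 : (0 : ℝ) < a := by linarith
  have hR : (1 : ℝ) ≤ r := by exact_mod_cast hr1
  have hR0 : (0 : ℝ) < r := by linarith
  have hRp : (r : ℝ) ≤ p := by exact_mod_cast hrp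
  have hp0 : (0 : ℝ) ≤ p := Nat.cast_nonneg p
  obtain ⟨d1, d2⟩ := h3 (p + 2) (w + 1) a (r - 1) (by omega)
  have hc : 0 < (p + 2).choose (w + 1) := Nat.choose_pos (by omega)
  set c : ℝ := ((p + 2).choose (w + 1) : ℝ) with hcdef
  have hc0 : 0 < c := by rw [hcdef]; exact_mod_cast hc
  set D : ℝ := (TT (p + 2) (w + 1) a (r - 1) : ℝ) with hDdef
  have d1' : c * (a : ℝ) ^ (w + 1) ≤ D := by rw [hcdef, hDdef]; exact_mod_cast d1
  have d2' : D ≤ c * ((a : ℝ) + 1) ^ (w + 1) := by rw [hcdef, hDdef]; exact_mod_cast d2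
  have hD0 : 0 < D := lt_of_lt_of_le (by positivity) d1'
  set N : ℝ := (((p : ℝ) + 4) * a + r) with hN
  have hN0 : 0 < N := by positivity
  set B : ℝ := ((a : ℝ) ^ (p + 3 - r) * ((a : ℝ) + 1) ^ r) with hB
  have hB0 : 0 < B := by positivity
  have hlam : lam p w r a = r * ((a : ℝ) + 1) * D / (N * B) := rfl
  have hlam0 : 0 < lam p w r a := by rw [hlam]; positivity
  have hLm : Lm p w r a = ((p : ℝ) + 4) * ((a : ℝ) + 1) / N * D / B := by
    show lam p w r a * (((p : ℝ) + 4) / r) = _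
    rw [hlam]
    field_simp
  have hLm0 : 0 < Lm p w r a := by rw [hLm]; positivity
  have hpow : (a : ℝ) ^ (p + 3) = (a : ℝ) ^ (p + 3 - r) * (a : ℝ) ^ r := by
    rw [← pow_add]
    congr 1
    omega
  -- the ratio of the powers
  have hq : (a : ℝ) ^ (p + 3) / B = ((a : ℝ) / (a + 1)) ^ r := by
    rw [hpow, hB, div_pow]
    field_simp
  have hq1 : (a : ℝ) ^ (p + 3) / B ≤ 1 := by
    rw [hq]
    exact pow_le_one₀ (by positivity) ((div_le_one (by positivity)).2 (by linarith))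
  have hq2 : 1 - r / (a : ℝ) ≤ (a : ℝ) ^ (p + 3) / B := by
    rw [hq]
    have h5 : (a : ℝ) / (a + 1) = 1 + (-(1 / ((a : ℝ) + 1))) := by
      field_simp
      ring
    have h6 : (1 : ℝ) + r * (-(1 / ((a : ℝ) + 1))) ≤ (1 + (-(1 / ((a : ℝ) + 1)))) ^ r := by
      apply one_add_mul_le_pow
      have : 1 / ((a : ℝ) + 1) ≤ 1 := (div_le_one (by positivity)).2 (by linarith)
      linarith
    rw [h5]
    refine le_trans ?_ h6
    have h7 : (r : ℝ) * (1 / ((a : ℝ) + 1)) ≤ r / a := by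
      rw [mul_one_div]
      exact div_le_div_of_nonneg_left hR0.le hA0 (by linarith)
    linarith
  have hs1 : 1 ≤ ((p : ℝ) + 4) * ((a : ℝ) + 1) / N := by
    rw [le_div_iff₀ hN0, hN]
    linarith
  have hs2 : ((p : ℝ) + 4) * ((a : ℝ) + 1) / N ≤ ((a : ℝ) + 1) / a := by
    rw [div_le_div_iff₀ hN0 hA0, hN]
    nlinarith [mul_nonneg (by linarith : (0 : ℝ) ≤ (a : ℝ) + 1) hR0.le]
  have hLa : Lm p w r a * (a : ℝ) ^ (p + 3) =
      ((p : ℝ) + 4) * ((a : ℝ) + 1) / N * D * ((a : ℝ) ^ (p + 3) / B) := by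
    rw [hLm]
    ring
  have hca : 0 < c * (a : ℝ) ^ (w + 1) := by positivity
  refine ⟨?_, ?_, hlam0, hLm0, ?_, ?_⟩
  · rw [hLa]
    have e1 : (1 - (2 ^ (w + 2) + (r : ℝ)) / a) ≤ 1 - r / a := by
      rw [add_div]
      have : (0 : ℝ) ≤ 2 ^ (w + 2) / a := by positivity
      linarith
    have e2 : 0 ≤ (a : ℝ) ^ (p + 3) / B := by positivity
    have e3 : c * (a : ℝ) ^ (w + 1) ≤ ((p : ℝ) + 4) * ((a : ℝ) + 1) / N * D := by
      refine d1'.trans ?_
      exact le_mul_of_one_le_left hD0.le hs1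
    calc (1 - (2 ^ (w + 2) + (r : ℝ)) / a) * (c * (a : ℝ) ^ (w + 1))
        ≤ ((a : ℝ) ^ (p + 3) / B) * (c * (a : ℝ) ^ (w + 1)) :=
          mul_le_mul_of_nonneg_right (e1.trans hq2) hca.le
      _ ≤ ((a : ℝ) ^ (p + 3) / B) * (((p : ℝ) + 4) * ((a : ℝ) + 1) / N * D) :=
          mul_le_mul_of_nonneg_left e3 e2
      _ = ((p : ℝ) + 4) * ((a : ℝ) + 1) / N * D * ((a : ℝ) ^ (p + 3) / B) := by ring
  · rw [hLa]
    have e1 : ((p : ℝ) + 4) * ((a : ℝ) + 1) / N * D ≤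
        ((a : ℝ) + 1) / a * (c * ((a : ℝ) + 1) ^ (w + 1)) :=
      mul_le_mul hs2 d2' hD0.le (by positivity)
    have e2 : ((p : ℝ) + 4) * ((a : ℝ) + 1) / N * D * ((a : ℝ) ^ (p + 3) / B) ≤
        ((a : ℝ) + 1) / a * (c * ((a : ℝ) + 1) ^ (w + 1)) :=
      (mul_le_of_le_one_right (by positivity) hq1).trans e1
    refine e2.trans ?_
    have e3 : ((a : ℝ) + 1) / a * (c * ((a : ℝ) + 1) ^ (w + 1)) =
        (1 + 1 / (a : ℝ)) ^ (w + 2) * (c * (a : ℝ) ^ (w + 1)) := by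
      have : (1 + 1 / (a : ℝ)) = ((a : ℝ) + 1) / a := by field_simp
      rw [this, div_pow, pow_succ ((a : ℝ) + 1) (w + 1), pow_succ (a : ℝ) (w + 1)]
      field_simp
    rw [e3]
    refine mul_le_mul_of_nonneg_right ?_ hca.le
    refine (LMB8_pow (w + 2) (1 / (a : ℝ)) (by positivity)
      ((div_le_one hA0).2 hA)).trans ?_
    rw [mul_one_div]
    have : (2 ^ (w + 2) - 1 : ℝ) / a ≤ (2 ^ (w + 2) + r) / a :=
      div_le_div_of_nonneg_right (by linarith) hA0.le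
    linarith
  · show lam p w r a ≤ lam p w r a * (((p : ℝ) + 4) / r)
    refine le_mul_of_one_le_right hlam0.le ?_
    rw [le_div_iff₀ hR0]
    linarith
  · have hbal : (bal (p + 3) ((p + 3) * a + r) : ℝ) = B := by
      have h5 : ((p + 3) * a + r) / (p + 3) = a := by
        rw [Nat.mul_add_div (by omega), Nat.div_eq_of_lt (by omega), add_zero]
      have h6 : ((p + 3) * a + r) % (p + 3) = r := by
        rw [Nat.mul_add_mod, Nat.mod_eq_of_lt (by omega)]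
      unfold bal
      rw [h5, h6, hB]
      push_cast
      rfl
    rw [hbal, hlam]
    show r * ((a : ℝ) + 1) * D / (N * B) * (N * B) = r * ((a : ℝ) + 1) * D
    field_simp

end Pool.GU7
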